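import Pool.Agent.MP_476a06_an.S.A
import Pool.Agent.MP_476a06_an.S.B
import Pool.Agent.MP_476a06_an.S.C
import Pool.Agent.MP_476a06_an.S.D

/-! Analytic capacity is strongly subadditive on compact sets. -/

set_option autoImplicit false

namespace Pool.Agent.Results.MP_476a06_an.StrongSubadditive

open Pool.Agent.MP_476a06_an.S

theorem result (A B : Set ℂ) (hA : IsCompact A) (hB : IsCompact B) :
    capacity (A ∪ B) + capacity (A ∩ B) ≤ capacity A + capacity B := by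
  have e1 : inv (A ∪ B) = inv A ∪ inv B := Set.ext fun _ => and_or_left
  have e2 : inv (A ∩ B) = inv A ∩ inv B := Set.ext fun _ => and_and_left
  rw [capacity_eq (hA.union hB), capacity_eq (hA.inter hB), capacity_eq hA, capacity_eq hB,
    (MOB_pf _ (hA.union hB)).2.2, (MOB_pf _ (hA.inter hB)).2.2, (MOB_pf A hA).2.2,
    (MOB_pf B hB).2.2, e1, e2]
  exact FIN_pf OUT_pf (APP_pf POM_pf RND_pf) (DSC_pf (EXS_pf APR_pf) (EST_pf APR_pf) SUM_pf
    (LAU_pf SUM_pf) (SEC_pf (LAU_pf SUM_pf)) PAR_pf (UNI_pf COL_pf) (CAP_pf COL_pf)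
    (PHI_pf COL_pf)) 0 _ _ (MOB_pf A hA).1 (MOB_pf B hB).1 (MOB_pf A hA).2.1 (MOB_pf B hB).2.1

end Pool.Agent.Results.MP_476a06_an.StrongSubadditive
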